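import Pool.Agent.Helper63K9.KS.LeafA
import Pool.Agent.Helper63K9.KS.LeafB
import Pool.Agent.Helper63K9.KS.LeafC
import Pool.Agent.Helper63K9.KS.LeafD
import Pool.Agent.Helper63K9.KS.LeafE
import Pool.Agent.Helper63K9.KS.LeafF
import Pool.Agent.Helper63K9.KS.LeafG
import Pool.Agent.Helper63K9.KS.Main

/-! # The mean number of limit cycles of the Kostlan ensemble is linear in the degree, up to logarithms

For the random planar polynomial systems of degree `n` of the Kostlan-Shub-Smale ensemble the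
expected number of all closed orbits in the whole plane, of all sizes and shapes, is at most
`4 * 10 ^ 11 * n * (1 + log n) ^ (5 / 2)`, for every `n ≥ 1`. -/

open Set MeasureTheory
open scoped ENNReal Nat

namespace Pool.Agent.Helper63K9.Kept.KostlanMean

/-- the exponents `(i, j)` with `i + j ≤ n` -/
def exponents (n : ℕ) : Finset (ℕ × ℕ) :=
  (Finset.range (n + 1) ×ˢ Finset.range (n + 1)).filter fun m => m.1 + m.2 ≤ n

/-- the standard deviation `√(n! / (i! j! (n - i - j)!))` of the coefficient of `x ^ i y ^ j` in the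
Kostlan-Shub-Smale ensemble of degree `n` -/
noncomputable def kostlan (n : ℕ) (m : ℕ × ℕ) : ℝ :=
  √((n ! : ℝ) / ((m.1 ! : ℝ) * (m.2 ! : ℝ) * ((n - m.1 - m.2)! : ℝ)))

/-- The vector field `(P, Q)` with `P = ∑ √(n! / (i! j! (n - i - j)!)) a_{ij} x ^ i y ^ j` and
`Q = ∑ √(n! / (i! j! (n - i - j)!)) b_{ij} x ^ i y ^ j`, the sums over all `i + j ≤ n`, where
`c (i, j) = (a_{ij}, b_{ij})`. -/
noncomputable def field (n : ℕ) (c : exponents n → ℝ × ℝ) (z : ℝ × ℝ) : ℝ × ℝ :=
  (∑ m : exponents n, kostlan n m * (c m).1 * (z.1 ^ m.1.1 * z.2 ^ m.1.2),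
   ∑ m : exponents n, kostlan n m * (c m).2 * (z.1 ^ m.1.1 * z.2 ^ m.1.2))

/-- the number of all nonconstant closed orbits (limit cycles or not) in the plane `ℝ²` of the system
`(x', y') = field n c (x, y)` -/
noncomputable def closedOrbits (n : ℕ) (c : exponents n → ℝ × ℝ) : ℝ≥0∞ :=
  (({C : Set (ℝ × ℝ) | ∃ γ : ℝ → ℝ × ℝ, ∃ T : ℝ, 0 < T ∧
    (∀ t : ℝ, HasDerivAt γ (field n c (γ t)) t) ∧ (∀ t : ℝ, γ (t + T) = γ t) ∧
    (∃ s t : ℝ, γ s ≠ γ t) ∧ C = Set.range γ}.encard : ℕ∞) : ℝ≥0∞)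

/-- the law of the coefficients `a_{ij}, b_{ij}`: independent standard normal variables -/
noncomputable def gaussian (n : ℕ) : Measure (exponents n → ℝ × ℝ) :=
  Measure.pi fun _ : exponents n =>
    (ProbabilityTheory.gaussianReal 0 1).prod (ProbabilityTheory.gaussianReal 0 1)

lemma kostlan_eq (n : ℕ) (m : exponents n) : kostlan n m = Helper63K9.KS.ka n m := by
  obtain ⟨⟨i, j⟩, hm⟩ := m
  have h : i + j ≤ n := W960.HR.mem_T.1 hm
  unfold kostlan Helper63K9.KS.ka Helper63K9.KS.mc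
  simp only
  congr 1
  have h1 := Nat.choose_mul_factorial_mul_factorial h
  have h2 : (i + j).choose i * i ! * j ! = (i + j)! := by
    have h6 := Nat.choose_mul_factorial_mul_factorial (Nat.le_add_right i j)
    rwa [Nat.add_sub_cancel_left] at h6
  have h3 : n - i - j = n - (i + j) := by omega
  rw [h3]
  have h4 : ((n.choose (i + j) : ℕ) : ℝ) * ((i + j)! : ℝ) * ((n - (i + j))! : ℝ) = (n ! : ℝ) := by
    exact_mod_cast h1
  have h5 : (((i + j).choose i : ℕ) : ℝ) * (i ! : ℝ) * (j ! : ℝ) = ((i + j)! : ℝ) := by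
    exact_mod_cast h2
  have p1 : (0:ℝ) < (i ! : ℝ) := by exact_mod_cast Nat.factorial_pos i
  have p2 : (0:ℝ) < (j ! : ℝ) := by exact_mod_cast Nat.factorial_pos j
  have p3 : (0:ℝ) < ((n - (i + j))! : ℝ) := by exact_mod_cast Nat.factorial_pos _
  rw [div_eq_iff (by positivity), ← h4, ← h5]
  ring

lemma field_eq (n : ℕ) (c : exponents n → ℝ × ℝ) :
    field n c = H709R2.fld (Helper63K9.KS.kc n c) := by
  funext p
  unfold field H709R2.fld Helper63K9.KS.kc
  simp only [kostlan_eq]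
  ext
  · simp only [Prod.fst_sum, Prod.smul_fst, smul_eq_mul]
    exact Finset.sum_congr rfl fun m _ => mul_comm _ _
  · simp only [Prod.snd_sum, Prod.smul_snd, smul_eq_mul]
    exact Finset.sum_congr rfl fun m _ => mul_comm _ _

lemma closedOrbits_eq (n : ℕ) (c : exponents n → ℝ × ℝ) :
    closedOrbits n c = H709R2.NP (Helper63K9.KS.kc n c) := by
  unfold H709R2.NP closedOrbits H709R2.ClosedOrbit
  rw [field_eq]

/-- For every `n ≥ 1`: the number of closed orbits in the plane of the system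
`x' = ∑ √(n! / (i! j! (n - i - j)!)) a_{ij} x ^ i y ^ j`,
`y' = ∑ √(n! / (i! j! (n - i - j)!)) b_{ij} x ^ i y ^ j` (sums over `i + j ≤ n`) is a Borel function
of the coefficients, and if the `a_{ij}, b_{ij}` are independent standard normal variables, then its
expectation is at most `4 * 10 ^ 11 * n * (1 + log n) ^ (5 / 2)`. -/
theorem result (n : ℕ) (hn : 1 ≤ n) :
    Measurable (closedOrbits n) ∧
    ∫⁻ c, closedOrbits n c ∂gaussian n ≤
      ENNReal.ofReal (4 * 10 ^ 11 * n * (1 + Real.log n) ^ (5 / 2 : ℝ)) := by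
  have hc : closedOrbits n = fun c => H709R2.NP (Helper63K9.KS.kc n c) :=
    funext fun c => closedOrbits_eq n c
  have hkc : Continuous (Helper63K9.KS.kc n) := by
    unfold Helper63K9.KS.kc
    fun_prop
  rw [hc]
  refine ⟨H709R2.measurable_NP.comp hkc.measurable, ?_⟩
  have h1 := Helper63K9.KS.kostlan Helper63K9.KS.a1 Helper63K9.KS.a2 Helper63K9.KS.b
    Helper63K9.KS.c Helper63K9.KS.d1 Helper63K9.KS.d2 Helper63K9.KS.e Helper63K9.KS.f
    Helper63K9.KS.f2 Helper63K9.KS.g hn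
  have h2 : (1 + Real.log n) ^ (5 / 2 : ℝ) = (1 + Real.log n) ^ 2 * √(1 + Real.log n) := by
    have hn1 : (1:ℝ) ≤ n := by exact_mod_cast hn
    have h3 : 0 < 1 + Real.log n := by linarith [Real.log_nonneg hn1]
    have h4 : (5 / 2 : ℝ) = 2 + 1 / 2 := by norm_num
    rw [h4, Real.rpow_add h3, Real.rpow_two, Real.sqrt_eq_rpow]
  rw [h2]
  exact h1

end Pool.Agent.Helper63K9.Kept.KostlanMean
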